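import Mathlib
import Pool.Agent.Helper94K9.LD.Defs
import Pool.Agent.Helper94K9.LD.Asym

/-!
Learning DNF formulas from `N` uniform random examples with learners that are polynomials in the
sample: the product (degree in the labels) * (log N) has the threshold `(log n) ^ 2` and the product
(degree in all the bits of the sample) * (log N) has the threshold `(log n) ^ 3`, up to constants.
-/

namespace Pool.Agent.Results.MP_cba12a_lc.LowDegreeLearners

open Pool.Agent.W964.Wd Helper94K9.LD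

/-- 1. Degree `d` in the labels, arbitrary dependence on the points.
2. Degree `D` in all the bits of the examples.
3. For all large `n` and all `N`: if `d log (N + 1) ≤ (log n) ^ 2 / 12` or
`D log (N + n) ≤ (log n) ^ 3 / 12`, every randomized learner has correlation at most
`n ^ (-(log n) / 12)` times its root mean square with some DNF formula with at most `n` gates.
4. For `N ≥ n ^ K` there is a deterministic learner of degree `d` in the labels for all
`d log N ≥ K (log n) ^ 2` and of degree `D` in all bits for all `D ≥ K log n` with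
`D log N ≥ K (log n) ^ 3`, whose correlation with every DNF formula with at most `n ^ C` gates is at
least `n ^ (-K)` times its root mean square.
5. Explicit form of 4. -/
theorem result :
    (∀ (n N s k d : ℕ), 1 ≤ k → k ≤ n → 2 ^ (k - 1) + 1 ≤ s →
      ∀ (R : Type) [Fintype R] [Nonempty R] (L : Learner n N R), LabelDegree d L →
        ∃ f, IsDnf s f ∧ corr L f ^ 2 ≤ ((N : ℝ) + 1) ^ d / n.choose k * sqMean L f) ∧
    (∀ (n N s k D : ℕ), 1 ≤ k → k ≤ n → 2 ^ (k - 1) + 1 ≤ s →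
      4 * 16 ^ D * (N + 1) ^ (2 * D / (k + 1)) ≤ n.choose k →
      ∀ (R : Type) [Fintype R] [Nonempty R] (L : Learner n N R), SampleDegree D L →
        ∃ f, IsDnf s f ∧
          corr L f ^ 2 ≤ 2 * ((N : ℝ) + 1) ^ (D / (k + 1)) / n.choose k * sqMean L f) ∧
    (∃ n₀ : ℕ, ∀ n : ℕ, n₀ ≤ n → ∀ (N : ℕ) (R : Type) [Fintype R] [Nonempty R]
      (L : Learner n N R),
      ((∃ d : ℕ, LabelDegree d L ∧ d * Real.log (N + 1) ≤ Real.log n ^ 2 / 12) ∨
        (∃ D : ℕ, SampleDegree D L ∧ D * Real.log (N + n) ≤ Real.log n ^ 3 / 12)) →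
      ∃ f, IsDnf n f ∧
        |corr L f| ≤ Real.exp (-(Real.log n ^ 2 / 12)) * Real.sqrt (sqMean L f)) ∧
    (∀ C : ℝ, 0 < C → ∃ K : ℝ, 0 < K ∧ ∃ n₀ : ℕ, ∀ n : ℕ, n₀ ≤ n →
      ∀ N : ℕ, (n : ℝ) ^ K ≤ N → ∃ L : Learner n N Unit,
        (∀ d : ℕ, K * Real.log n ^ 2 ≤ d * Real.log N → LabelDegree d L) ∧
        (∀ D : ℕ, K * Real.log n ≤ D → K * Real.log n ^ 3 ≤ D * Real.log N →
          SampleDegree D L) ∧
        ∀ (s : ℕ) (f : (Fin n → Bool) → Bool), (s : ℝ) ≤ (n : ℝ) ^ C → IsDnf s f →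
          Real.sqrt (sqMean L f) ≤ (n : ℝ) ^ K * corr L f) ∧
    (∀ (n N s l t B : ℕ), 1 ≤ s → 2 * s < 2 ^ (l + 1) → Odd t → (n + 1) ^ l ≤ B ^ t →
      4 * s ^ 2 * (t * (t + 1)) * B ≤ N →
      ∃ L : Learner n N Unit, LabelDegree t L ∧ SampleDegree (t * (l + 1)) L ∧
        ∀ f, IsDnf s f → Real.sqrt (sqMean L f) ≤ 8 * s ^ 2 * corr L f) :=
  ⟨fun _ _ _ _ _ hk hkn hs R _ _ L hL => label_lower hk hkn hs L hL,
    fun _ _ _ _ _ hk hkn hs hD R _ _ L hL => sample_lower hk hkn hs hD L hL,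
    lower_asym, upper_asym, fun _ _ _ _ _ _ hs hl ht hB hN => upper hs hl ht hB hN⟩

end Pool.Agent.Results.MP_cba12a_lc.LowDegreeLearners
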