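import Pool.Agent.Helper91K9.DL.Full

/-!
# Learning read-`k` DNF formulas from uniform random examples

A DNF formula is read-`k` if every variable occurs, negated or not, in at most `k` of its terms.
For every fixed `k` the read-`k` DNF formulas are learnable from uniform random examples in time
polynomial in `n`, `1/ε` and `1/δ`.
-/

namespace Pool.Agent.Results.MP_cba12a_lc.ReadKLearning

open Pool.Agent.Helper91K9.DL Pool.Agent.H424R2.PPAD

theorem result (k : ℕ) :
    ∃ A : ℕ × List (List Bool × Bool) → List (List (ℕ × Bool)), PTime A ∧ ∃ e : ℕ,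
      ∀ (n a b : ℕ) (F : List (List (ℕ × Bool))), 1 ≤ a → 1 ≤ b → ReadK n k F →
        ∀ m, (n + a + b) ^ e ≤ m → Succeeds (fun s => A (a, s)) n m F (1 / a) (1 / b) :=
  full k

end Pool.Agent.Results.MP_cba12a_lc.ReadKLearning
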