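import Pool.Agent.Helper91K9.SP.Full

/-!
# Learning DNF formulas with sparse incidence graph from uniform random examples

The incidence graph of a DNF formula has the variables and the terms as its vertices; a variable is
joined to the terms in which it occurs, negated or not.  For every fixed `d` and every fixed error
bound `1/a` the DNF formulas for which all subgraphs of the incidence graph have at most `d` times as
many edges as vertices are learnable from uniform random examples in polynomial time.
-/

namespace Pool.Agent.Results.MP_cba12a_lc.SparseLearning

open Pool.Agent.Helper91K9.DL Pool.Agent.Helper91K9.SP Pool.Agent.H424R2.PPAD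

theorem result (d a : ℕ) (ha : 1 ≤ a) :
    ∃ A : List (List Bool × Bool) → List (List (ℕ × Bool)), PTime A ∧ ∃ e : ℕ,
      ∀ (n b : ℕ) (F : List (List (ℕ × Bool))), 1 ≤ b →
        (∀ u ∈ F, ∀ l ∈ u, l.1 < n) → Sparse d F →
          ∀ m, (n + a + b) ^ e ≤ m → Succeeds A n m F (1 / a) (1 / b) :=
  target d a ha

end Pool.Agent.Results.MP_cba12a_lc.SparseLearning
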