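import Pool.Agent.Helper91K9.TW.Full

/-!
# Learning DNF formulas of bounded treewidth from uniform random examples

The incidence graph of a DNF formula has the variables and the terms as its vertices; a variable is
joined to the terms in which it occurs, negated or not.  For every fixed `t` the DNF formulas whose
incidence graph has treewidth at most `t` (terms of any width, variables in any number of terms)
are learnable from uniform random examples in time polynomial in `n`, `1/ε` and `1/δ`.
-/

namespace Pool.Agent.Results.MP_cba12a_lc.TreewidthLearning

open Pool.Agent.Helper91K9.DL Pool.Agent.Helper91K9.TW Pool.Agent.H424R2.PPAD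

theorem result (t : ℕ) :
    ∃ A : ℕ × List (List Bool × Bool) → List (List (ℕ × Bool)), PTime A ∧ ∃ e : ℕ,
      ∀ (n a b : ℕ) (F : List (List (ℕ × Bool))), 1 ≤ a → 1 ≤ b →
        (∀ u ∈ F, ∀ l ∈ u, l.1 < n) → TreeWidthLE t F →
          ∀ m, (n + a + b) ^ e ≤ m → Succeeds (fun s => A (a, s)) n m F (1 / a) (1 / b) :=
  tw_full t

end Pool.Agent.Results.MP_cba12a_lc.TreewidthLearning
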